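import Pool.Agent.MWE.Stmts

/-!
# Row FST of squad MWE: the structure of the words of the family
-/

set_option autoImplicit false

namespace Pool.Agent.MWE.H81F

open Pool.Agent.Helper14_MV Pool.Agent.Helper2_MV Pool.Agent.MVD Pool.Agent.MWE

/-! ### projections of blocks -/

theorem pr_sep (i j k r : ℕ) : pr i j k (3 * r + 2) = [3 * r + 2] := by
  unfold pr
  rw [if_neg (by omega), if_neg (by omega)]

theorem bw_pr (i j k : ℕ) (B : ℕ → List ℕ) : ∀ R : List ℕ,
    (Bw R B).flatMap (pr i j k) = Bw R (fun r => (B r).flatMap (pr i j k)) := by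
  intro R
  induction R with
  | nil => rfl
  | cons a R ih =>
    have h1 : Bw (a :: R) B = B a ++ ((3 * a + 2) :: Bw R B) := by simp [Bw]
    have h2 : Bw (a :: R) (fun r => (B r).flatMap (pr i j k)) =
        (B a).flatMap (pr i j k) ++ ((3 * a + 2) :: Bw R (fun r => (B r).flatMap (pr i j k))) := by
      simp [Bw]
    rw [h1, h2, List.flatMap_append, List.flatMap_cons, pr_sep, ih]
    rfl

theorem bwe_pr (i j k : ℕ) (R : List ℕ) (B : ℕ → List ℕ) (e : List ℕ) :
    (Bw R B ++ e).flatMap (pr i j k) =
      Bw R (fun r => (B r).flatMap (pr i j k)) ++ e.flatMap (pr i j k) := by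
  rw [List.flatMap_append, bw_pr]

theorem sfr_pr (i j k : ℕ) {D : List ℕ} (h : SFr D) : SFr (D.flatMap (pr i j k)) := by
  intro b hb
  obtain ⟨a, ha, hab⟩ := List.mem_flatMap.mp hb
  have h1 := h a ha
  unfold pr at hab
  split_ifs at hab with h2 h3 h4 h5 h6 h7 h8
  all_goals first
    | (simp at hab; done)
    | (simp at hab; omega)

/-! ### the letters `x_i` -/

theorem xl_cons (a : ℕ) (D : List ℕ) :
    xl (a :: D) = (if a % 3 = 0 ∧ a < 12 then [a / 3] else []) ++ xl D := by
  unfold xl
  by_cases h : a % 3 = 0 ∧ a < 12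
  · rw [List.filter_cons_of_pos (by simpa using h), if_pos h]; rfl
  · rw [List.filter_cons_of_neg (by simpa using h), if_neg h]; rfl

theorem xl_append (A C : List ℕ) : xl (A ++ C) = xl A ++ xl C := by
  unfold xl
  rw [List.filter_append, List.map_append]

theorem xl_lt {D : List ℕ} : ∀ a ∈ xl D, a < 4 := by
  intro a ha
  unfold xl at ha
  obtain ⟨b, hb, rfl⟩ := List.mem_map.mp ha
  have := (List.mem_filter.mp hb).2
  simp at this
  omega

theorem mem_xl {D : List ℕ} {i : ℕ} : i ∈ xl D ↔ (i < 4 ∧ 3 * i ∈ D) := by
  constructor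
  · intro h
    have h4 := xl_lt i h
    refine ⟨h4, ?_⟩
    unfold xl at h
    obtain ⟨b, hb, hbi⟩ := List.mem_map.mp h
    obtain ⟨hb1, hb2⟩ := List.mem_filter.mp hb
    simp at hb2
    have : b = 3 * i := by omega
    exact this ▸ hb1
  · rintro ⟨h4, h⟩
    unfold xl
    refine List.mem_map.mpr ⟨3 * i, List.mem_filter.mpr ⟨h, ?_⟩, by omega⟩
    simp
    omega

theorem fxy_append (A C : List ℕ) : fxy (A ++ C) = fxy A ++ fxy C := by
  unfold fxy
  rw [List.filter_append]

theorem xs_append (i j : ℕ) (A C : List ℕ) : Xs i j (A ++ C) = Xs i j A ++ Xs i j C := by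
  unfold Xs
  rw [List.flatMap_append]

theorem fxy_pr_one (i j k a : ℕ) :
    fxy (pr i j k a) = Xs i j (if a % 3 = 0 ∧ a < 12 then [a / 3] else []) := by
  by_cases h0 : a % 3 = 0
  · by_cases h12 : a < 12
    · rw [if_pos ⟨h0, h12⟩]
      unfold pr
      rw [if_pos h0, if_pos h12]
      by_cases ha : a = 3 * i
      · have e1 : a / 3 = i := by omega
        rw [if_pos ha, e1]
        simp [fxy, Xs]
      · rw [if_neg ha]
        have n1 : ¬ a / 3 = i := by omega
        by_cases hb : a = 3 * j
        · have e1 : a / 3 = j := by omega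
          rw [if_pos hb]
          simp only [fxy, Xs, List.flatMap_cons, List.flatMap_nil, if_neg n1, if_pos e1]
          simp
        · have n2 : ¬ a / 3 = j := by omega
          rw [if_neg hb]
          simp [fxy, Xs, n1, n2]
    · rw [if_neg (fun h => h12 h.2)]
      unfold pr
      rw [if_pos h0, if_neg h12]
      by_cases hk : (a / 3 + 2) % 3 = k
      · rw [if_pos hk]
        have : ¬ (3 * ((a / 3 + 2) / 3) = 0 ∨ 3 * ((a / 3 + 2) / 3) = 3) := by omega
        simp only [fxy, Xs, List.flatMap_nil]
        rw [List.filter_cons_of_neg (by simpa using this)]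
        rfl
      · rw [if_neg hk]
        simp [fxy, Xs]
  · rw [if_neg (fun h => h0 h.1)]
    unfold pr
    rw [if_neg h0]
    by_cases h1 : a % 3 = 1
    · rw [if_pos h1]
      by_cases hk : a / 3 % 3 = k
      · rw [if_pos hk]
        have : ¬ (3 * (a / 3 / 3) + 1 = 0 ∨ 3 * (a / 3 / 3) + 1 = 3) := by omega
        simp only [fxy, Xs, List.flatMap_nil]
        rw [List.filter_cons_of_neg (by simpa using this)]
        rfl
      · rw [if_neg hk]
        simp [fxy, Xs]
    · rw [if_neg h1]
      have : ¬ (a = 0 ∨ a = 3) := by omega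
      simp only [fxy, Xs, List.flatMap_nil]
      rw [List.filter_cons_of_neg (by simpa using this)]
      rfl

theorem fxy_pr (i j k : ℕ) : ∀ D : List ℕ,
    fxy (D.flatMap (pr i j k)) = Xs i j (xl D) := by
  intro D
  induction D with
  | nil => rfl
  | cons a D ih =>
    rw [List.flatMap_cons, fxy_append, xl_cons, xs_append, ih, fxy_pr_one i j k a]

/-! ### arrangements of four letters -/

theorem xs_count0 (i j : ℕ) : ∀ L : List ℕ, (Xs i j L).count 0 = L.count i := by
  intro L
  induction L with
  | nil => rfl
  | cons a L ih =>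
    have : Xs i j (a :: L) = (if a = i then [0] else if a = j then [3] else []) ++ Xs i j L := rfl
    rw [this, List.count_append, ih, List.count_cons]
    by_cases h : a = i
    · simp [h]; omega
    · by_cases h2 : a = j
      · rw [if_neg h, if_pos h2]; simp [h]
      · rw [if_neg h, if_neg h2]; simp [h]

theorem xs_count3 (i j : ℕ) (hij : i ≠ j) : ∀ L : List ℕ, (Xs i j L).count 3 = L.count j := by
  intro L
  induction L with
  | nil => rfl
  | cons a L ih =>
    have : Xs i j (a :: L) = (if a = i then [0] else if a = j then [3] else []) ++ Xs i j L := rfl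
    rw [this, List.count_append, ih, List.count_cons]
    by_cases h : a = i
    · have h3 : a ≠ j := fun h' => hij (h ▸ h')
      rw [if_pos h]; simp [h3]
    · by_cases h2 : a = j
      · rw [if_neg h, if_pos h2]; simp [h2]; omega
      · rw [if_neg h, if_neg h2]; simp [h2]

set_option maxRecDepth 100000 in
theorem xs_dec : ∀ s ∈ List.permutations' [0, 1, 2, 3], ∀ t ∈ List.permutations' [0, 1, 2, 3],
    (Xs 0 1 s = Xs 0 1 t ∧ Xs 0 2 s = Xs 0 2 t ∧ Xs 0 3 s = Xs 0 3 t ∧ Xs 1 2 s = Xs 1 2 t ∧
      Xs 1 3 s = Xs 1 3 t ∧ Xs 2 3 s = Xs 2 3 t) → s = t := by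
  decide +kernel

theorem xs_inj {L t : List ℕ} (hL : ∀ a ∈ L, a < 4) (ht : t.Perm [0, 1, 2, 3])
    (h : ∀ i j, i < j → j ≤ 3 → Xs i j L = Xs i j t) : L = t := by
  have hc : ∀ a, L.count a = t.count a := by
    intro a
    by_cases h4 : a < 4
    · by_cases h3 : a < 3
      · have := congrArg (List.count 0) (h a (a + 1) (by omega) (by omega))
        rwa [xs_count0, xs_count0] at this
      · have := congrArg (List.count 3) (h 2 a (by omega) (by omega))
        rwa [xs_count3 _ _ (by omega), xs_count3 _ _ (by omega)] at this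
    · have h1 : a ∉ L := fun h => h4 (hL a h)
      have h2 : a ∉ t := by
        intro h
        have := ht.mem_iff.mp h
        simp at this
        omega
      rw [List.count_eq_zero_of_not_mem h1, List.count_eq_zero_of_not_mem h2]
  have hp : L.Perm t := List.perm_iff_count.mpr hc
  exact xs_dec L (List.mem_permutations'.mpr (hp.trans ht)) t (List.mem_permutations'.mpr ht)
    ⟨h 0 1 (by omega) (by omega), h 0 2 (by omega) (by omega), h 0 3 (by omega) (by omega),
      h 1 2 (by omega) (by omega), h 1 3 (by omega) (by omega), h 2 3 (by omega) (by omega)⟩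

theorem xx_xs {t : List ℕ} (ht : t.Perm [0, 1, 2, 3]) {i j : ℕ} (hij : i < j) (hj : j ≤ 3) :
    XX (Xs i j t) := by
  have key : ∀ t ∈ List.permutations' [0, 1, 2, 3], ∀ j < 4, ∀ i < j,
      (Xs i j t = [0, 3] ∨ Xs i j t = [3, 0]) := by decide +kernel
  exact key t (List.mem_permutations'.mpr ht) j (by omega) i hij

/-! ### light letters -/

theorem cnt_one (i j k d a : ℕ) (hk : k < 3) :
    (pr i j k a).count (3 * d + 1) = if a = 3 * (3 * d + k) + 1 then 1 else 0 := by
  unfold pr
  by_cases h0 : a % 3 = 0
  · rw [if_pos h0, if_neg (by omega : ¬ a = 3 * (3 * d + k) + 1)]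
    apply List.count_eq_zero_of_not_mem
    split_ifs <;> simp <;> omega
  · rw [if_neg h0]
    by_cases h1 : a % 3 = 1
    · rw [if_pos h1]
      by_cases hk' : a / 3 % 3 = k
      · rw [if_pos hk']
        by_cases ha : a = 3 * (3 * d + k) + 1
        · rw [if_pos ha]
          have : 3 * (a / 3 / 3) + 1 = 3 * d + 1 := by omega
          rw [this]; simp
        · rw [if_neg ha]
          apply List.count_eq_zero_of_not_mem
          simp
          omega
      · rw [if_neg hk', if_neg (by omega : ¬ a = 3 * (3 * d + k) + 1)]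
        rfl
    · rw [if_neg h1, if_neg (by omega : ¬ a = 3 * (3 * d + k) + 1)]
      apply List.count_eq_zero_of_not_mem
      simp
      omega

theorem cnt_pr (i j k d : ℕ) (hk : k < 3) : ∀ D : List ℕ,
    (D.flatMap (pr i j k)).count (3 * d + 1) = D.count (3 * (3 * d + k) + 1) := by
  intro D
  induction D with
  | nil => rfl
  | cons a D ih =>
    rw [List.flatMap_cons, List.count_append, ih, List.count_cons, cnt_one i j k d a hk]
    by_cases ha : a = 3 * (3 * d + k) + 1
    · simp [ha]; omega
    · simp [ha]

theorem mem_pr (i j k d : ℕ) (hk : k < 3) {D : List ℕ} :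
    (3 * d + 1) ∈ D.flatMap (pr i j k) ↔ (3 * (3 * d + k) + 1) ∈ D := by
  rw [← List.count_pos_iff, ← List.count_pos_iff, cnt_pr i j k d hk]

/-! ### copies -/

/-- a letter which is not a separator and not one of the `x_i` belongs to exactly one copy -/
theorem copy_of {b : ℕ} (h2 : b % 3 ≠ 2) (hx : ¬ isx b) :
    ∃ k b', k < 3 ∧ b' ≠ 0 ∧ b' ≠ 3 ∧ ∀ i j, pr i j k b = [b'] := by
  unfold isx at hx
  by_cases h0 : b % 3 = 0
  · have h12 : ¬ b < 12 := fun h => hx ⟨h0, h⟩
    refine ⟨(b / 3 + 2) % 3, 3 * ((b / 3 + 2) / 3), by omega, by omega, by omega, ?_⟩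
    intro i j
    unfold pr
    rw [if_pos h0, if_neg h12, if_pos rfl]
  · have h1 : b % 3 = 1 := by omega
    refine ⟨b / 3 % 3, 3 * (b / 3 / 3) + 1, by omega, by omega, by omega, ?_⟩
    intro i j
    unfold pr
    rw [if_neg h0, if_pos h1, if_pos rfl]

theorem pr_i (i j k : ℕ) (hi : i < 4) : pr i j k (3 * i) = [0] := by
  unfold pr
  rw [if_pos (by omega), if_pos (by omega), if_pos rfl]

theorem pr_j (i j k : ℕ) (hij : i ≠ j) (hj : j < 4) : pr i j k (3 * j) = [3] := by
  unfold pr
  rw [if_pos (by omega), if_pos (by omega), if_neg (by omega), if_pos rfl]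

/-! ### uniqueness -/

theorem uniq0 {A C h : List ℕ} (he : A ++ 0 :: C = 0 :: (h ++ [3])) (h0 : 0 ∉ h) :
    A = [] ∧ C = h ++ [3] := by
  cases A with
  | nil => simp at he; exact ⟨rfl, he⟩
  | cons a A =>
    exfalso
    simp only [List.cons_append, List.cons.injEq] at he
    have : (0 : ℕ) ∈ h ++ [3] := he.2 ▸ (by simp)
    simp at this
    exact h0 this

theorem uniq3 {A C h : List ℕ} (he : A ++ 3 :: C = 0 :: (h ++ [3])) (h3 : 3 ∉ h) :
    A = 0 :: h ∧ C = [] := by
  have he' : A ++ 3 :: C = (0 :: h) ++ 3 :: [] := by simpa using he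
  have h3' : (3 : ℕ) ∉ 0 :: h := by simp [h3]
  rcases List.append_eq_append_iff.mp he' with ⟨u, hu, hu'⟩ | ⟨u, hu, hu'⟩
  · cases u with
    | nil =>
      simp at hu hu'
      exact ⟨hu.symm, hu'⟩
    | cons x u =>
      exfalso
      simp only [List.cons_append, List.cons.injEq] at hu'
      apply h3'
      rw [hu, hu'.1]
      simp
  · cases u with
    | nil =>
      simp at hu hu'
      exact ⟨hu, hu'⟩
    | cons x u =>
      exfalso
      simp only [List.cons_append, List.cons.injEq] at hu'
      have := hu'.2
      simp at this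

/-! ### separators -/

theorem filt_pr (i j k : ℕ) : ∀ w : List ℕ,
    (w.flatMap (pr i j k)).filter (fun a => decide (a % 3 = 2)) =
      w.filter (fun a => decide (a % 3 = 2)) := by
  intro w
  induction w with
  | nil => rfl
  | cons a w ih =>
    rw [List.flatMap_cons, List.filter_append, ih]
    by_cases h : a % 3 = 2
    · rw [List.filter_cons_of_pos (by simpa using h)]
      have : pr i j k a = [a] := by
        unfold pr
        rw [if_neg (by omega), if_neg (by omega)]
      rw [this, List.filter_cons_of_pos (by simpa using h)]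
      rfl
    · rw [List.filter_cons_of_neg (by simpa using h)]
      have : (pr i j k a).filter (fun a => decide (a % 3 = 2)) = [] := by
        rw [List.filter_eq_nil_iff]
        intro b hb
        have h1 : SFr ([a].flatMap (pr i j k)) := sfr_pr i j k (by
          intro c hc
          simp at hc
          rw [hc]
          exact h)
        have h2 := h1 b (by simpa using hb)
        simpa using h2
      rw [this]
      rfl

theorem filt_bw : ∀ (R : List ℕ) (B : ℕ → List ℕ) (e : List ℕ), (∀ r, SFr (B r)) → SFr e →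
    (Bw R B ++ e).filter (fun a => decide (a % 3 = 2)) = R.map (fun r => 3 * r + 2) := by
  intro R B e hB he
  have hs : ∀ D : List ℕ, SFr D → D.filter (fun a => decide (a % 3 = 2)) = [] := by
    intro D hD
    rw [List.filter_eq_nil_iff]
    intro b hb
    have := hD b hb
    simpa using this
  induction R with
  | nil => simpa [Bw] using hs e he
  | cons a R ih =>
    have h1 : Bw (a :: R) B ++ e = B a ++ ((3 * a + 2) :: (Bw R B ++ e)) := by simp [Bw]
    rw [h1, List.filter_append, hs _ (hB a), List.filter_cons_of_pos (by simp), ih]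
    rfl

/-! ### the row -/

theorem fst (dcm : DcmStmt) (bas : BasStmt) (cpr : CprStmt) (nfh : NfhStmt) : FstStmt := by
  intro β m R c t w hS hF
  obtain ⟨ht, hF⟩ := hF
  refine ⟨?_, ?_⟩
  · have h1 := hF 0 0 1 (le_refl _) (by omega) (by omega)
    obtain ⟨B, e, hw, hB, he⟩ := (bas β m R c (Xs 0 1 t) hS.i3 hS.can hS.pR
      (xx_xs ht (by omega) (by omega))).1 _ h1
    have hR : R.Nodup := hS.pR.nodup_iff.mpr List.nodup_range
    apply dcm R w hR
    rw [← filt_pr 0 1 0 w, hw, filt_bw R B e hB he]
  · intro B e hB he hw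
    have gd : ∀ i k j : ℕ, i ≤ k → k < j → j ≤ 3 →
        Gd m R c (Xs i j t) (fun r => (B r).flatMap (pr i j k)) (e.flatMap (pr i j k)) := by
      intro i k j hik hkj hj
      have h1 := hF i k j hik hkj hj
      rw [hw, bwe_pr] at h1
      exact cpr β m R c (Xs i j t) _ _ hS (xx_xs ht (by omega) hj)
        (fun r => sfr_pr i j k (hB r)) (sfr_pr i j k he) h1
    have nf : ∀ i k j : ℕ, i ≤ k → k < j → j ≤ 3 → ∀ h : List ℕ,
        (B 1).flatMap (pr i j k) = 0 :: (h ++ [3]) →
        (∀ (a : ℕ) (h' : List ℕ), h = a :: h' → a ∉ (B 0).flatMap (pr i j k)) ∧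
        (∀ (a : ℕ) (h' : List ℕ), h = h' ++ [a] → a ∉ (B 0).flatMap (pr i j k)) := by
      intro i k j hik hkj hj h hh
      have h1 := hF i k j hik hkj hj
      rw [hw, bwe_pr] at h1
      exact nfh β m R c (Xs i j t) _ _ h hS (xx_xs ht (by omega) hj)
        (fun r => sfr_pr i j k (hB r)) (sfr_pr i j k he) h1 hh
    have x1 : xl (B 1) = [0, 1, 2, 3] := by
      apply xs_inj xl_lt (List.Perm.refl _)
      intro i j hij hj
      obtain ⟨h, hh, h0, h3, -, -⟩ := (gd i i j (le_refl _) hij hj).b1
      have hh' : (B 1).flatMap (pr i j i) = 0 :: (h ++ [3]) := hh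
      rw [← fxy_pr i j i, hh']
      have e1 : fxy h = [] := by
        unfold fxy
        rw [List.filter_eq_nil_iff]
        intro a ha
        have n0 : a ≠ 0 := fun h => h0 (h ▸ ha)
        have n3 : a ≠ 3 := fun h => h3 (h ▸ ha)
        simp [n0, n3]
      have e2 : fxy (0 :: (h ++ [3])) = [0, 3] := by
        have : (0 :: (h ++ [3])) = [0] ++ (h ++ [3]) := rfl
        rw [this, fxy_append, fxy_append, e1]
        rfl
      rw [e2]
      have key : ∀ j < 4, ∀ i < j, [0, 3] = Xs i j [0, 1, 2, 3] := by decide
      exact key j (by omega) i hij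
    have nox : ∀ D : List ℕ, (∀ i k j : ℕ, i ≤ k → k < j → j ≤ 3 →
        0 ∉ D.flatMap (pr i j k) ∧ 3 ∉ D.flatMap (pr i j k)) → xl D = [] := by
      intro D hD
      rw [List.eq_nil_iff_forall_not_mem]
      intro a ha
      obtain ⟨h4, hm⟩ := mem_xl.mp ha
      by_cases h3 : a < 3
      · apply (hD a a (a + 1) (le_refl _) (by omega) (by omega)).1
        rw [List.mem_flatMap]
        refine ⟨3 * a, hm, ?_⟩
        rw [pr_i _ _ _ h4]
        simp
      · have ha3 : a = 3 := by omega
        subst ha3
        apply (hD 2 2 3 (le_refl _) (by omega) (by omega)).2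
        rw [List.mem_flatMap]
        refine ⟨3 * 3, hm, ?_⟩
        rw [pr_j _ _ _ (by omega) (by omega)]
        simp
    -- neighbours
    have ne : ∀ (A C : List ℕ) (a b : ℕ), B 1 = A ++ a :: b :: C → isx a → ¬ isx b := by
      intro A C a b hab ha hb
      have h1 : xl (B 1) = xl A ++ (a / 3 :: b / 3 :: xl C) := by
        rw [hab, xl_append, xl_cons, xl_cons, if_pos (show a % 3 = 0 ∧ a < 12 from ha),
          if_pos (show b % 3 = 0 ∧ b < 12 from hb)]
        rfl
      rw [x1] at h1
      have key : ∃ i, i < 3 ∧ a / 3 = i ∧ b / 3 = i + 1 := by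
        rcases hA : xl A with _ | ⟨u, _ | ⟨v, _ | ⟨z, l⟩⟩⟩
        · rw [hA] at h1; simp at h1; exact ⟨0, by omega, by omega, by omega⟩
        · rw [hA] at h1; simp at h1; exact ⟨1, by omega, by omega, by omega⟩
        · rw [hA] at h1; simp at h1; exact ⟨2, by omega, by omega, by omega⟩
        · exfalso
          rw [hA] at h1
          have := congrArg List.length h1
          simp at this
          omega
      obtain ⟨i, hi, h2, h3⟩ := key
      have ea : a = 3 * i := by
        have := ha.1
        omega
      have eb : b = 3 * (i + 1) := by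
        have := hb.1
        omega
      obtain ⟨h, hh, h0, h3', hc, -⟩ := (gd i i (i + 1) (le_refl _) (by omega) (by omega)).b1
      have hh' : (B 1).flatMap (pr i (i + 1) i) = 0 :: (h ++ [3]) := hh
      rw [hab, List.flatMap_append, List.flatMap_cons, List.flatMap_cons, ea, eb,
        pr_i _ _ _ (by omega), pr_j _ _ _ (by omega) (by omega)] at hh'
      have h4 := (uniq0 hh' h0).2
      cases h with
      | nil =>
        obtain ⟨u, hu⟩ := List.exists_mem_of_ne_nil _ hS.ne
        have := hc u hu
        simp at this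
      | cons u h =>
        simp at h4
        apply h3'
        rw [← h4.1]
        simp
    refine ⟨hB, he, ?_, x1, ?_, ?_, ne, ?_, ?_, ?_, ?_, ?_⟩
    · -- x0
      apply xs_inj xl_lt ht
      intro i j hij hj
      have h1 := (gd i i j (le_refl _) hij hj).b0
      rw [← fxy_pr i j i]
      exact h1
    · -- xo
      intro r hr h0 h1
      apply nox
      intro i k j hik hkj hj
      exact ⟨(gd i k j hik hkj hj).xo r hr h0 h1, (gd i k j hik hkj hj).yo r hr h0 h1⟩
    · -- xe
      apply nox
      intro i k j hik hkj hj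
      exact ⟨(gd i k j hik hkj hj).xe, (gd i k j hik hkj hj).ye⟩
    · -- nb
      intro A C a b hab ha hb0
      have hbx := ne A C a b hab ha
      have hb2 : b % 3 ≠ 2 := hB 1 b (by rw [hab]; simp)
      obtain ⟨k, b', hk, n0, n3, hp⟩ := copy_of hb2 hbx
      obtain ⟨i, ea⟩ : ∃ i, a = 3 * i := ⟨a / 3, by have := ha.1; omega⟩
      have hi : i < 4 := by have := ha.2; omega
      have h1 : xl (B 1) = xl A ++ (i :: xl C) := by
        have hbx' : ¬ (b % 3 = 0 ∧ b < 12) := hbx
        rw [hab, xl_append, xl_cons, xl_cons, if_pos (show a % 3 = 0 ∧ a < 12 from ha),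
          if_neg hbx', ea]
        simp
      rw [x1] at h1
      rcases lt_trichotomy k i with hki | hki | hki
      · -- `k < i`
        obtain ⟨h, hh, h0, h3', hc, -⟩ := (gd k k i (le_refl _) hki (by omega)).b1
        have hh' : (B 1).flatMap (pr k i k) = 0 :: (h ++ [3]) := hh
        rw [hab, List.flatMap_append, List.flatMap_cons, List.flatMap_cons, ea,
          pr_j _ _ _ (by omega) (by omega), hp] at hh'
        have h4 := (uniq3 hh' h3').2
        simp at h4
      · -- `k = i`
        subst hki
        obtain ⟨h, hh, h0, h3', hc, -⟩ := (gd k k (k + 1) (le_refl _) (by omega) (by omega)).b1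
        have hh' : (B 1).flatMap (pr k (k + 1) k) = 0 :: (h ++ [3]) := hh
        have hn := (nf k k (k + 1) (le_refl _) (by omega) (by omega) h hh').1
        rw [hab, List.flatMap_append, List.flatMap_cons, List.flatMap_cons, ea,
          pr_i _ _ _ (by omega), hp] at hh'
        have h4 := (uniq0 hh' h0).2
        cases h with
        | nil =>
          simp at h4
          exact n3 h4.1
        | cons u h =>
          simp at h4
          apply hn b' h (by rw [h4.1])
          rw [List.mem_flatMap]
          exact ⟨b, hb0, by rw [hp]; simp⟩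
      · -- `i < k`
        have hkC : k ∈ xl C := by
          have : k ∈ xl A ++ (i :: xl C) := by rw [← h1]; simp; omega
          rcases List.mem_append.mp this with hA | hA
          · exfalso
            rcases hA' : xl A with _ | ⟨u, _ | ⟨v, _ | ⟨z, _ | ⟨y, l⟩⟩⟩⟩
            · rw [hA'] at hA; simp at hA
            · rw [hA'] at h1 hA; simp at h1 hA; omega
            · rw [hA'] at h1 hA; simp at h1 hA; omega
            · rw [hA'] at h1 hA; simp at h1 hA; omega
            · rw [hA'] at h1
              have := congrArg List.length h1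
              simp at this
          · rcases List.mem_cons.mp hA with hA | hA
            · omega
            · exact hA
        have hkC' := (mem_xl.mp hkC).2
        obtain ⟨C1, C2, hC⟩ := List.append_of_mem hkC'
        obtain ⟨h, hh, h0, h3', hc, -⟩ := (gd k k (k + 1) (le_refl _) (by omega) (by omega)).b1
        have hh' : (B 1).flatMap (pr k (k + 1) k) = 0 :: (h ++ [3]) := hh
        rw [hab, hC] at hh'
        have hre : A ++ a :: b :: (C1 ++ 3 * k :: C2) = (A ++ a :: b :: C1) ++ 3 * k :: C2 := by
          simp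
        rw [hre, List.flatMap_append, List.flatMap_cons, pr_i _ _ _ (by omega)] at hh'
        have h4 := (uniq0 hh' h0).1
        rw [List.flatMap_append, List.flatMap_cons, List.flatMap_cons, hp] at h4
        simp at h4
    · -- nc
      intro A C a b hab hb ha0
      have hax : ¬ isx a := fun ha => ne A C a b hab ha hb
      have ha2 : a % 3 ≠ 2 := hB 1 a (by rw [hab]; simp)
      obtain ⟨k, a', hk, n0, n3, hp⟩ := copy_of ha2 hax
      obtain ⟨j, eb⟩ : ∃ j, b = 3 * j := ⟨b / 3, by have := hb.1; omega⟩
      have hj : j < 4 := by have := hb.2; omega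
      have h1 : xl (B 1) = xl A ++ (j :: xl C) := by
        have hax' : ¬ (a % 3 = 0 ∧ a < 12) := hax
        rw [hab, xl_append, xl_cons, xl_cons, if_neg hax',
          if_pos (show b % 3 = 0 ∧ b < 12 from hb), eb]
        simp
      rw [x1] at h1
      rcases lt_trichotomy (k + 1) j with hkj | hkj | hkj
      · -- `k + 1 < j`
        have hkA : k + 1 ∈ xl A := by
          have : k + 1 ∈ xl A ++ (j :: xl C) := by rw [← h1]; simp; omega
          rcases List.mem_append.mp this with hA | hA
          · exact hA
          · exfalso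
            rcases List.mem_cons.mp hA with hA | hA
            · omega
            · rcases hA' : xl A with _ | ⟨u, _ | ⟨v, _ | ⟨z, _ | ⟨y, l⟩⟩⟩⟩
              · rw [hA'] at h1; simp at h1; omega
              · rw [hA'] at h1; simp at h1; omega
              · rw [hA'] at h1; simp at h1
                rw [← h1.2.2.2] at hA
                simp at hA; omega
              · rw [hA'] at h1; simp at h1
                rw [h1.2.2.2.2] at hA
                simp at hA
              · rw [hA'] at h1
                have := congrArg List.length h1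
                simp at this
        have hkA' := (mem_xl.mp hkA).2
        obtain ⟨A1, A2, hA⟩ := List.append_of_mem hkA'
        obtain ⟨h, hh, h0, h3', hc, -⟩ := (gd k k (k + 1) (le_refl _) (by omega) (by omega)).b1
        have hh' : (B 1).flatMap (pr k (k + 1) k) = 0 :: (h ++ [3]) := hh
        rw [hab, hA] at hh'
        have hre : A1 ++ 3 * (k + 1) :: A2 ++ a :: b :: C =
            A1 ++ 3 * (k + 1) :: (A2 ++ a :: b :: C) := by
          simp
        rw [hre, List.flatMap_append, List.flatMap_cons, pr_j _ _ _ (by omega) (by omega)] at hh'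
        have h4 := (uniq3 hh' h3').2
        rw [List.flatMap_append, List.flatMap_cons, hp] at h4
        simp at h4
      · -- `k + 1 = j`
        subst hkj
        obtain ⟨h, hh, h0, h3', hc, -⟩ := (gd k k (k + 1) (le_refl _) (by omega) (by omega)).b1
        have hh' : (B 1).flatMap (pr k (k + 1) k) = 0 :: (h ++ [3]) := hh
        have hn := (nf k k (k + 1) (le_refl _) (by omega) (by omega) h hh').2
        rw [hab, List.flatMap_append, List.flatMap_cons, List.flatMap_cons, eb,
          pr_j _ _ _ (by omega) (by omega), hp] at hh'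
        have hre : A.flatMap (pr k (k + 1) k) ++ ([a'] ++ ([3] ++ C.flatMap (pr k (k + 1) k))) =
            (A.flatMap (pr k (k + 1) k) ++ [a']) ++ 3 :: C.flatMap (pr k (k + 1) k) := by
          simp
        rw [hre] at hh'
        have h4 := (uniq3 hh' h3').1
        rcases hA : A.flatMap (pr k (k + 1) k) with _ | ⟨u, l⟩
        · rw [hA] at h4
          simp at h4
          exact n0 h4.1
        · rw [hA] at h4
          simp at h4
          apply hn a' l h4.2.symm
          rw [List.mem_flatMap]
          exact ⟨a, ha0, by rw [hp]; simp⟩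
      · -- `j ≤ k`
        obtain ⟨h, hh, h0, h3', hc, -⟩ := (gd j k (k + 1) (by omega) (by omega) (by omega)).b1
        have hh' : (B 1).flatMap (pr j (k + 1) k) = 0 :: (h ++ [3]) := hh
        rw [hab, List.flatMap_append, List.flatMap_cons, List.flatMap_cons, eb,
          pr_i _ _ _ (by omega), hp] at hh'
        have hre : A.flatMap (pr j (k + 1) k) ++ ([a'] ++ ([0] ++ C.flatMap (pr j (k + 1) k))) =
            (A.flatMap (pr j (k + 1) k) ++ [a']) ++ 0 :: C.flatMap (pr j (k + 1) k) := by
          simp
        rw [hre] at hh'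
        have h4 := (uniq0 hh' h0).1
        simp at h4
    · -- li
      intro b hb r hr
      have hk : b % 3 < 3 := by omega
      have h1 := (gd (b % 3) (b % 3) (b % 3 + 1) (le_refl _) (by omega) (by omega)).li (b / 3)
        (by omega) r hr
      have h2 : ((B r).flatMap (pr (b % 3) (b % 3 + 1) (b % 3))).count (3 * (b / 3) + 1) =
          if r = 1 ∨ r = b / 3 + 2 then 1 else 0 := h1
      rw [cnt_pr _ _ _ _ hk] at h2
      have h3 : 3 * (b / 3) + b % 3 = b := by omega
      rwa [h3] at h2
    · -- le
      intro b hb hbe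
      have hk : b % 3 < 3 := by omega
      have h1 := (gd (b % 3) (b % 3) (b % 3 + 1) (le_refl _) (by omega) (by omega)).le (b / 3)
        (by omega)
      apply h1
      rw [mem_pr _ _ _ _ hk]
      have h3 : 3 * (b / 3) + b % 3 = b := by omega
      rwa [h3]
    · -- fu
      intro A h C a hab ha d hd
      obtain ⟨h', hh, h0, h3', hc, -⟩ := (gd a a (a + 1) (le_refl _) (by omega) (by omega)).b1
      have hh' : (B 1).flatMap (pr a (a + 1) a) = 0 :: (h' ++ [3]) := hh
      rw [hab, List.flatMap_append, List.flatMap_cons, List.flatMap_append, List.flatMap_cons,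
        pr_i _ _ _ (by omega), pr_j _ _ _ (by omega) (by omega)] at hh'
      have h4 := (uniq0 hh' h0).2
      have hdc : 3 * d + 1 ∈ c := by
        rw [← List.count_pos_iff, hS.can.li d hd]
        omega
      have hd' := hc _ hdc
      rw [← mem_pr a (a + 1) a d ha]
      have h5 : h.flatMap (pr a (a + 1) a) ++ 3 :: C.flatMap (pr a (a + 1) a) = h' ++ [3] := by
        simpa using h4
      have h6 : (0 :: h.flatMap (pr a (a + 1) a)) ++ 3 :: C.flatMap (pr a (a + 1) a) =
          0 :: (h' ++ [3]) := by
        simpa using h5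
      have h7 := (uniq3 h6 h3').1
      simp at h7
      rw [h7]
      exact hd'

end Pool.Agent.MWE.H81F
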