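import Pool.Agent.MWE.Stmts

/-!
# Squad MWE (MP_23468a_al), row SPL: the shape of the big words
-/

set_option autoImplicit false

namespace Pool.Agent.MWE.H81

open Pool.Agent.Helper14_MV Pool.Agent.Helper2_MV Pool.Agent.MVD Pool.Agent.MWE

theorem bw_congr {R : List ℕ} {B B' : ℕ → List ℕ} (h : ∀ r ∈ R, B r = B' r) : Bw R B = Bw R B' := by
  unfold Bw
  induction R with
  | nil => rfl
  | cons r R ih =>
    rw [List.flatMap_cons, List.flatMap_cons, h r (List.mem_cons_self ..),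
      ih fun q hq => h q (List.mem_cons_of_mem _ hq)]

theorem bw_append (R R' : List ℕ) (B : ℕ → List ℕ) : Bw (R ++ R') B = Bw R B ++ Bw R' B := by
  unfold Bw
  rw [List.flatMap_append]

theorem bw_cons (r : ℕ) (R : List ℕ) (B : ℕ → List ℕ) :
    Bw (r :: R) B = B r ++ (3 * r + 2) :: Bw R B := by
  unfold Bw
  rw [List.flatMap_cons, List.append_assoc]
  rfl

/-- **SPL** -/
theorem spl : SplStmt := by
  intro m R c hR hb
  obtain ⟨A, B, C, rfl⟩ := hb
  have hnd : (A ++ 0 :: (B ++ 1 :: C)).Nodup := hR.nodup_iff.2 List.nodup_range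
  rw [List.nodup_append, List.nodup_cons] at hnd
  obtain ⟨-, ⟨h0, -⟩, hA⟩ := hnd
  have hA0 : ∀ r ∈ A, r ≠ 0 := fun r hr => hA r hr 0 (List.mem_cons_self ..)
  have hB0 : ∀ r ∈ B, r ≠ 0 := fun r hr h => h0 (by
    rw [← h]
    exact List.mem_append_left _ hr)
  have hC0 : ∀ r ∈ C, r ≠ 0 := fun r hr h => h0 (by
    rw [← h]
    exact List.mem_append_right _ (List.mem_cons_of_mem _ hr))
  have key : ∀ (s : List ℕ) (T : List ℕ), (∀ r ∈ T, r ≠ 0) →
      Bw T (fun r => if r = 0 then s.map (fun i => 3 * i) else if r = 1 then L4 c else Z3 r) =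
      Bw T (fun r => if r = 1 then L4 c else Z3 r) := by
    intro s T hT
    exact bw_congr fun r hr => if_neg (hT r hr)
  refine ⟨Bw A (fun r => if r = 1 then L4 c else Z3 r),
    (3 * 0 + 2) :: Bw B (fun r => if r = 1 then L4 c else Z3 r),
    (3 * 1 + 2) :: Bw C (fun r => if r = 1 then L4 c else Z3 r), fun s => ?_⟩
  unfold Fq
  rw [bw_append, bw_cons, bw_append, bw_cons, key s A hA0, key s B hB0, key s C hC0]
  show _ ++ (s.map (fun i => 3 * i) ++ (3 * 0 + 2) :: (_ ++ (L4 c ++ (3 * 1 + 2) :: _))) = _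
  simp only [List.cons_append]

end Pool.Agent.MWE.H81
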